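import Pool.Agent.Helper92_SBG.Rd

/-!
# CA1: all commutators are in a group of rank one
-/

namespace Pool.Agent.SBG.H17

open Pool.Agent.SBG Sy

/-! ### Index -/

lemma relIndex_le_card {A : Type*} [AddCommGroup A] (L M : AddSubgroup A) {ι : Type*} [Fintype ι]
    (f : ι → A) (h : ∀ z ∈ M, ∃ i, z - f i ∈ L) :
    L.relIndex M ≠ 0 ∧ L.relIndex M ≤ Fintype.card ι := by
  classical
  choose i hi using h
  have hinj : Function.Injective
      (fun q : M ⧸ L.addSubgroupOf M => i (q.out : M) (q.out : M).2) := by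
    intro q q' hq
    have h1 := hi (q.out : M) (q.out : M).2
    have h2 := hi (q'.out : M) (q'.out : M).2
    simp only at hq
    rw [← hq] at h2
    have h3 := L.sub_mem h2 h1
    have h4 : -(q.out : M) + (q'.out : M) ∈ L.addSubgroupOf M := by
      rw [AddSubgroup.mem_addSubgroupOf]
      have e : ((-(q.out : M) + (q'.out : M) : M) : A) =
          ((q'.out : M) : A) - f (i (q.out : M) (q.out : M).2) -
            (((q.out : M) : A) - f (i (q.out : M) (q.out : M).2)) := by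
        push_cast
        abel
      rw [e]
      exact h3
    have h5 := QuotientAddGroup.eq.mpr h4
    rwa [QuotientAddGroup.out_eq', QuotientAddGroup.out_eq'] at h5
  have hfin : Finite (M ⧸ L.addSubgroupOf M) := Finite.of_injective _ hinj
  constructor
  · change Nat.card (M ⧸ L.addSubgroupOf M) ≠ 0
    exact Nat.card_pos.ne'
  · change Nat.card (M ⧸ L.addSubgroupOf M) ≤ _
    rw [← Nat.card_eq_fintype_card]
    exact Nat.card_le_card_of_injective _ hinj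

lemma relIndex_smul {A : Type*} [AddCommGroup A] (L M : AddSubgroup A)
    {v : A} (hv : v ∈ M) : L.relIndex M • v ∈ L := by
  have h := AddSubgroup.nsmul_index_mem (L.addSubgroupOf M) (⟨v, hv⟩ : M)
  rw [AddSubgroup.mem_addSubgroupOf] at h
  exact h

/-! ### The forms on `LM` -/

section forms

variable {k : ℕ}

lemma form_zero_left (a b : ℤ) (y : V k) : a * bf0 (0 : V k) y + b * bf1 (0 : V k) y = 0 := by
  have h0 : bf0 (0 : V k) y = 0 := by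
    have := bf0_add_left (0 : V k) 0 y
    rw [add_zero] at this
    exact left_eq_add.mp this
  have h1 : bf1 (0 : V k) y = 0 := by
    have := bf1_add_left (0 : V k) 0 y
    rw [add_zero] at this
    exact left_eq_add.mp this
  rw [h0, h1]; ring

lemma form_neg_left (a b : ℤ) (x y : V k) :
    a * bf0 (-x) y + b * bf1 (-x) y = -(a * bf0 x y + b * bf1 x y) := by
  have h : (a * bf0 (x + -x) y + b * bf1 (x + -x) y) = 0 := by
    rw [add_neg_cancel]; exact form_zero_left a b y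
  rw [bf0_add_left, bf1_add_left] at h
  linarith

lemma LM_form (X : Finset (W k)) (a b c : ℤ)
    (h : ∀ x ∈ X, ∀ y ∈ X, c ∣ a * bf0 (pv x) (pv y) + b * bf1 (pv x) (pv y)) :
    ∀ v ∈ LM (HX X), ∀ w ∈ LM (HX X), c ∣ a * bf0 v w + b * bf1 v w := by
  rw [LM_HX]
  have step : ∀ y ∈ pv '' (X : Set (W k)), ∀ v ∈ AddSubgroup.closure (pv '' (X : Set (W k))),
      c ∣ a * bf0 v y + b * bf1 v y := by
    rintro _ ⟨y, hy, rfl⟩ v hv
    refine AddSubgroup.closure_induction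
      (p := fun v _ => c ∣ a * bf0 v (pv y) + b * bf1 v (pv y)) ?_ ?_ ?_ ?_ hv
    · rintro _ ⟨x, hx, rfl⟩
      exact h x hx y hy
    · rw [form_zero_left]; exact dvd_zero _
    · intro x x' _ _ hx hx'
      rw [bf0_add_left, bf1_add_left]
      have := dvd_add hx hx'
      refine this.trans (dvd_of_eq ?_)
      ring
    · intro x _ hx
      rw [form_neg_left]
      exact (dvd_neg).mpr hx
  intro v hv w hw
  have swap : ∀ x y : V k, a * bf0 x y + b * bf1 x y = -(a * bf0 y x + b * bf1 y x) := by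
    intro x y
    rw [bf0_swap y x, bf1_swap y x]; ring
  rw [swap, dvd_neg]
  refine AddSubgroup.closure_induction
    (p := fun w _ => c ∣ a * bf0 w v + b * bf1 w v) ?_ ?_ ?_ ?_ hw
  · intro y hy
    rw [swap, dvd_neg]
    exact step y hy v hv
  · rw [form_zero_left]; exact dvd_zero _
  · intro x x' _ _ hx hx'
    rw [bf0_add_left, bf1_add_left]
    have := dvd_add hx hx'
    refine this.trans (dvd_of_eq ?_)
    ring
  · intro x _ hx
    rw [form_neg_left]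
    exact (dvd_neg).mpr hx

end forms

/-! ### Subgroups of `ℤ` -/

lemma exists_gen (S : AddSubgroup ℤ) : ∃ g : ℕ, ∀ t : ℤ, t ∈ S ↔ (g : ℤ) ∣ t := by
  obtain ⟨a, ha⟩ := Int.subgroup_cyclic S
  refine ⟨a.natAbs, fun t => ?_⟩
  rw [ha, AddSubgroup.mem_closure_singleton, Int.natAbs_dvd]
  constructor
  · rintro ⟨m, rfl⟩
    exact ⟨m, by simp [mul_comm]⟩
  · rintro ⟨m, rfl⟩
    exact ⟨m, by simp [mul_comm]⟩

/-! ### The plane -/

/-- decomposition of an integer vector. -/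
lemma decomp (l0 l1 m0 m1 : ℤ) (h : m0 * l1 - m1 * l0 = 1) (z : Fin 2 → ℤ) :
    z = (l0 * z 0 + l1 * z 1) • ![-m1, m0] + (m0 * z 0 + m1 * z 1) • ![l1, -l0] := by
  funext j
  fin_cases j
  · simp
    linear_combination (-(z 0)) * h
  · simp
    linear_combination (-(z 1)) * h

variable {k : ℕ}

/-- the data of the generator `g`. -/
lemma exists_g (X : Finset (W k)) (l0 l1 m0 m1 : ℤ) (h : m0 * l1 - m1 * l0 = 1)
    (hX : ∀ x ∈ X, ∀ y ∈ X, l0 * bz x y 0 + l1 * bz x y 1 = 0)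
    (hne : ∃ x ∈ X, ∃ y ∈ X, bz x y ≠ 0) (B : ℕ)
    (hB : ∀ x ∈ X, ∀ y ∈ X, ∀ j, |bz x y j| ≤ B) :
    ∃ g : ℕ, 0 < g ∧ (∀ x ∈ X, ∀ y ∈ X, (g : ℤ) ∣ m0 * bz x y 0 + m1 * bz x y 1) ∧
      (2 * g) • ![l1, -l0] ∈ Lam (HX X) ∧ g * max l0.natAbs l1.natAbs ≤ B := by
  classical
  let ζ : Fin 2 → ℤ := ![l1, -l0]
  let S : AddSubgroup ℤ := AddSubgroup.closure
    {t | ∃ x ∈ X, ∃ y ∈ X, m0 * bz x y 0 + m1 * bz x y 1 = t}
  let T : AddSubgroup ℤ := (Lam (HX X)).comap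
    (AddMonoidHom.mk' (fun t : ℤ => (2 * t) • ζ) (fun s t => by
      rw [mul_add, add_smul]))
  have hdec : ∀ x ∈ X, ∀ y ∈ X, bz x y = (m0 * bz x y 0 + m1 * bz x y 1) • ζ := by
    intro x hx y hy
    have h1 := decomp l0 l1 m0 m1 h (bz x y)
    rw [hX x hx y hy, zero_smul, zero_add] at h1
    exact h1
  have hST : S ≤ T := by
    rw [AddSubgroup.closure_le]
    rintro _ ⟨x, hx, y, hy, rfl⟩
    change (2 * (m0 * bz x y 0 + m1 * bz x y 1)) • ζ ∈ Lam (HX X)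
    rw [mul_smul, ← hdec x hx y hy]
    have h2 := two_bz_mem (mem_HX hx) (mem_HX hy)
    have e : (2 : ℤ) • bz x y = 2 • bz x y := by
      rw [two_smul, two_smul]
    rw [e]
    exact h2
  obtain ⟨g, hg⟩ := exists_gen S
  have hdvd : ∀ x ∈ X, ∀ y ∈ X, (g : ℤ) ∣ m0 * bz x y 0 + m1 * bz x y 1 := by
    intro x hx y hy
    exact (hg _).mp (AddSubgroup.subset_closure ⟨x, hx, y, hy, rfl⟩)
  obtain ⟨x, hx, y, hy, hxy⟩ := hne
  have hb : m0 * bz x y 0 + m1 * bz x y 1 ≠ 0 := by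
    intro hb
    apply hxy
    rw [hdec x hx y hy, hb, zero_smul]
  have hg0 : 0 < g := by
    rcases Nat.eq_zero_or_pos g with h0 | h0
    · exfalso
      apply hb
      have := hdvd x hx y hy
      rw [h0, Nat.cast_zero, zero_dvd_iff] at this
      exact this
    · exact h0
  refine ⟨g, hg0, hdvd, ?_, ?_⟩
  · have h1 : (g : ℤ) ∈ T := hST ((hg _).mpr dvd_rfl)
    have h2 : (2 * (g : ℤ)) • ζ ∈ Lam (HX X) := h1
    have e : (2 * (g : ℤ)) • ζ = (2 * g) • ζ := by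
      have e1 : (2 * (g : ℤ)) = ((2 * g : ℕ) : ℤ) := by push_cast; ring
      rw [e1, natCast_zsmul]
    rw [e] at h2
    exact h2
  · set b := m0 * bz x y 0 + m1 * bz x y 1 with hbdef
    have hle : (g : ℤ) ≤ |b| := Int.le_of_dvd (abs_pos.mpr hb) ((dvd_abs _ _).mpr (hdvd x hx y hy))
    have e0 : bz x y 0 = b * l1 := by
      have := congrFun (hdec x hx y hy) 0
      simpa [ζ] using this
    have e1 : bz x y 1 = -(b * l0) := by
      have := congrFun (hdec x hx y hy) 1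
      simpa [ζ] using this
    have b0 := hB x hx y hy 0
    have b1 := hB x hx y hy 1
    rw [e0, abs_mul] at b0
    rw [e1, abs_neg, abs_mul] at b1
    rcases le_total l0.natAbs l1.natAbs with hl | hl
    · rw [max_eq_right hl]
      zify
      exact (mul_le_mul_of_nonneg_right hle (abs_nonneg _)).trans b0
    · rw [max_eq_left hl]
      zify
      exact (mul_le_mul_of_nonneg_right hle (abs_nonneg _)).trans b1

/-- residues modulo `N` times a vector. -/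
lemma exists_res {A : Type*} [AddCommGroup A] (L : AddSubgroup A) (N : ℕ) (hN : 0 < N) (v : A)
    (hv : N • v ∈ L) (t : ℤ) : ∃ i : Fin N, t • v - ((i : ℕ) : ℤ) • v ∈ L := by
  have hN' : (0 : ℤ) < N := by exact_mod_cast hN
  have h1 := Int.emod_nonneg t hN'.ne'
  have h2 := Int.emod_lt_of_pos t hN'
  refine ⟨⟨(t % N).toNat, by omega⟩, ?_⟩
  have e1 : (((t % N).toNat : ℕ) : ℤ) = t % N := Int.toNat_of_nonneg h1
  simp only [e1]
  rw [← sub_smul]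
  have e2 : t - t % N = (t / N) * N := by
    have := Int.emod_add_mul_ediv t N
    linarith
  rw [e2, mul_smul, natCast_zsmul]
  exact L.zsmul_mem hv _

/-- the index of `Λ` in its saturation, `λ(Λ) = 0`. -/
lemma index_zero (Λ : AddSubgroup (Fin 2 → ℤ)) (l0 l1 m0 m1 : ℤ) (h : m0 * l1 - m1 * l0 = 1)
    (g : ℕ) (hg : 0 < g) (hζ : (2 * g) • ![l1, -l0] ∈ Λ) (h0 : ∀ z ∈ Λ, l0 * z 0 + l1 * z 1 = 0) :
    Λ.relIndex (sat Λ) ≠ 0 ∧ Λ.relIndex (sat Λ) ≤ 2 * g := by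
  have h1 := relIndex_le_card Λ (sat Λ) (ι := Fin (2 * g)) (fun i => ((i : ℕ) : ℤ) • ![l1, -l0])
    (by
      intro z hz
      have hz0 : l0 * z 0 + l1 * z 1 = 0 := by
        obtain ⟨m, hm, hmz⟩ := hz
        have := h0 _ hmz
        simp only [Pi.smul_apply, nsmul_eq_mul] at this
        have h2 : (m : ℤ) * (l0 * z 0 + l1 * z 1) = 0 := by linarith
        rcases mul_eq_zero.mp h2 with h3 | h3
        · exfalso
          have : m = 0 := by exact_mod_cast h3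
          omega
        · exact h3
      have h2 := decomp l0 l1 m0 m1 h z
      rw [hz0, zero_smul, zero_add] at h2
      obtain ⟨i, hi⟩ := exists_res Λ (2 * g) (by omega) _ hζ (m0 * z 0 + m1 * z 1)
      refine ⟨i, ?_⟩
      rw [← h2] at hi
      exact hi)
  rw [Fintype.card_fin] at h1
  exact h1

/-- the index of `Λ` in its saturation, `λ(Λ) ≠ 0`. -/
lemma index_pos (Λ : AddSubgroup (Fin 2 → ℤ)) (l0 l1 m0 m1 : ℤ) (h : m0 * l1 - m1 * l0 = 1)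
    (g : ℕ) (hg : 0 < g) (hζ : (2 * g) • ![l1, -l0] ∈ Λ) (D : ℕ) (hD : 0 < D)
    (h0 : ∀ t : ℤ, (∃ z ∈ Λ, l0 * z 0 + l1 * z 1 = t) ↔ (D : ℤ) ∣ t) :
    Λ.relIndex (sat Λ) ≠ 0 ∧ Λ.relIndex (sat Λ) ≤ 2 * g * D := by
  have h1 := relIndex_le_card Λ (sat Λ) (ι := Fin (2 * g) × Fin D)
    (fun p => ((p.1 : ℕ) : ℤ) • ![l1, -l0] + ((p.2 : ℕ) : ℤ) • ![-m1, m0])
    (by
      intro z _
      have hD' : (0 : ℤ) < D := by exact_mod_cast hD
      set t := l0 * z 0 + l1 * z 1 with ht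
      have h1 := Int.emod_nonneg t hD'.ne'
      have h2 := Int.emod_lt_of_pos t hD'
      obtain ⟨w, hw, hwD⟩ := (h0 (D * (t / D))).mpr (Dvd.intro _ rfl)
      set y := z - w with hy
      have hy1 : l0 * y 0 + l1 * y 1 = t % D := by
        have := Int.emod_add_mul_ediv t D
        simp only [hy, Pi.sub_apply]
        linarith
      have h3 := decomp l0 l1 m0 m1 h y
      rw [hy1] at h3
      obtain ⟨i, hi⟩ := exists_res Λ (2 * g) (by omega) _ hζ (m0 * y 0 + m1 * y 1)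
      refine ⟨(i, ⟨(t % D).toNat, by omega⟩), ?_⟩
      have e1 : (((t % D).toNat : ℕ) : ℤ) = t % D := Int.toNat_of_nonneg h1
      simp only [e1]
      have h4 := Λ.add_mem hi hw
      have e2 : z - (((i : ℕ) : ℤ) • ![l1, -l0] + (t % D) • ![-m1, m0]) =
          (m0 * y 0 + m1 * y 1) • ![l1, -l0] - ((i : ℕ) : ℤ) • ![l1, -l0] + w := by
        have e3 : z = y + w := by rw [hy]; abel
        rw [e3]
        nth_rewrite 1 [h3]
        abel
      rw [e2]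
      exact h4)
  rw [Fintype.card_prod, Fintype.card_fin, Fintype.card_fin] at h1
  exact h1

/-! ### The core -/

lemma core (hchi : ChiStmt) (hsep : SepStmt) (X : Finset (W k)) (z : Fin 2 → ℤ)
    (hz : z ∈ sat (Lam (HX X))) (hz' : z ∉ Lam (HX X))
    (hε : (LM (HX X)).relIndex (sat (LM (HX X))) ≠ 0) :
    ∃ (q : ℕ) (χ : (Fin 2 → ℤ) →+ ZMod q), q = (Lam (HX X)).relIndex (sat (Lam (HX X))) ∧ 0 < q ∧
      (∀ x ∈ Lam (HX X), χ x = 0) ∧
      relDepth (HX X) (⟨0, zin z⟩ : Gp k) ≤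
        ((40320 * (q * (LM (HX X)).relIndex (sat (LM (HX X)))) ^ 5 *
          (Rc (k := k) χ).index : ℕ) : ℕ∞) := by
  obtain ⟨hq, χ, hχ, hχz⟩ := hchi (Fin 2) (Lam (HX X)) z hz hz'
  refine ⟨_, χ, rfl, Nat.pos_of_ne_zero hq, hχ, ?_⟩
  have h := hsep k (HX X) 1 (Tr_HX X) _ _ (Nat.pos_of_ne_zero hq) (Nat.pos_of_ne_zero hε) χ hχ
    (fun v hv => relIndex_smul _ _ hv) z hχz
  rw [one_mul] at h
  exact h

/-! ### The three cases -/

/-- the case `λ(Λ) = 0`. -/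
lemma case_zero (hchi : ChiStmt) (hsep : SepStmt) (hidx : IdxStmt) (hcru : CruStmt) (A C₁ : ℕ)
    (hk : 100 ≤ k) : ∃ C : ℕ, ∀ n : ℕ, 1 ≤ n → ∀ X : Finset (W k),
    (∀ x ∈ X, ∀ c, |x c| ≤ A * (n : ℤ) ^ (wt c)) → ∀ l0 l1 m0 m1 : ℤ, m0 * l1 - m1 * l0 = 1 →
    ∀ g : ℕ, 0 < g → (2 * g) • ![l1, -l0] ∈ Lam (HX X) → g ≤ C₁ * n ^ 5 →
    (∀ z ∈ Lam (HX X), l0 * z 0 + l1 * z 1 = 0) →
    ∀ z : Fin 2 → ℤ, z ∈ sat (Lam (HX X)) → z ∉ Lam (HX X) → Sm C n (HX X) ⟨0, zin z⟩ := by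
  classical
  obtain ⟨C₂, hC₂⟩ := hcru k A 0
  refine ⟨(40320 * ((2 * C₁) ^ (16 * k + 5) * C₂ ^ 5)) ^ 2, ?_⟩
  intro n hn X hX l0 l1 m0 m1 hm g hg hζ hgn h0 z hz hz'
  obtain ⟨i1, i2⟩ := index_zero (Lam (HX X)) l0 l1 m0 m1 hm g hg hζ h0
  obtain ⟨j1, j2⟩ := hC₂ n hn (X.image pv) (by
    intro v hv c
    obtain ⟨x, hx, rfl⟩ := Finset.mem_image.mp hv
    exact hX x hx (Sum.inl c))
  rw [Finset.coe_image, ← LM_HX] at j1 j2
  rw [zero_mul, add_zero] at j2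
  obtain ⟨q, χ, hq, hq0, hχ, hd⟩ := core hchi hsep X z hz hz' j1
  set ε := (LM (HX X)).relIndex (sat (LM (HX X))) with hε
  obtain ⟨_, r2, _⟩ := hidx k q hq0 χ
  rw [← hq] at i2
  refine ⟨40320 * (q * ε) ^ 5 * (Rc (k := k) χ).index, hd, ?_⟩
  have hq2 : q ≤ 2 * C₁ * n ^ 5 := by
    calc q ≤ 2 * g := i2
      _ ≤ 2 * (C₁ * n ^ 5) := Nat.mul_le_mul_left _ hgn
      _ = 2 * C₁ * n ^ 5 := by ring
  have h1 : 40320 * (q * ε) ^ 5 * (Rc (k := k) χ).index ≤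
      (40320 * ((2 * C₁) ^ (16 * k + 5) * C₂ ^ 5)) * n ^ (310 * k + 55) := by
    calc 40320 * (q * ε) ^ 5 * (Rc (k := k) χ).index
        ≤ 40320 * (q * ε) ^ 5 * q ^ (16 * k) := Nat.mul_le_mul_left _ r2
      _ = 40320 * (q ^ (16 * k + 5) * ε ^ 5) := by ring
      _ ≤ 40320 * ((2 * C₁ * n ^ 5) ^ (16 * k + 5) * (C₂ * n ^ (46 * k + 6)) ^ 5) := by
          gcongr
      _ = (40320 * ((2 * C₁) ^ (16 * k + 5) * C₂ ^ 5)) * n ^ (310 * k + 55) := by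
          rw [mul_pow (2 * C₁), mul_pow C₂, ← pow_mul n, ← pow_mul n]
          have e : n ^ (310 * k + 55) = n ^ (5 * (16 * k + 5)) * n ^ ((46 * k + 6) * 5) := by
            rw [← pow_add]; congr 1; ring
          rw [e]; ring
  calc (40320 * (q * ε) ^ 5 * (Rc (k := k) χ).index) ^ 2
      ≤ ((40320 * ((2 * C₁) ^ (16 * k + 5) * C₂ ^ 5)) * n ^ (310 * k + 55)) ^ 2 :=
        Nat.pow_le_pow_left h1 2
    _ = (40320 * ((2 * C₁) ^ (16 * k + 5) * C₂ ^ 5)) ^ 2 * n ^ ((310 * k + 55) * 2) := by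
        rw [mul_pow, ← pow_mul n]
    _ ≤ (40320 * ((2 * C₁) ^ (16 * k + 5) * C₂ ^ 5)) ^ 2 *
          n ^ ((68 * k + 23) * (16 * k + 5)) := by
        refine Nat.mul_le_mul_left _ (Nat.pow_le_pow_right hn ?_)
        nlinarith

/-- the case `λ(Λ) ≠ 0`, `l1 ≠ 0`. -/
lemma case_one (hchi : ChiStmt) (hsep : SepStmt) (hidx : IdxStmt) (hlat : LatStmt)
    (hrpb : RpbStmt) (hreg : RegStmt) (A C₁ : ℕ) (hk : 100 ≤ k) :
    ∃ C : ℕ, ∀ n : ℕ, 1 ≤ n → ∀ X : Finset (W k),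
    (∀ x ∈ X, ∀ c, |x c| ≤ A * (n : ℤ) ^ (wt c)) → ∀ l0 l1 : ℤ, IsCoprime l0 l1 → l1 ≠ 0 →
    (∀ x ∈ X, ∀ y ∈ X, l0 * bz x y 0 + l1 * bz x y 1 = 0) →
    ∀ m0 m1 : ℤ, m0 * l1 - m1 * l0 = 1 →
    ∀ g : ℕ, 0 < g → (∀ x ∈ X, ∀ y ∈ X, (g : ℤ) ∣ m0 * bz x y 0 + m1 * bz x y 1) →
    (2 * g) • ![l1, -l0] ∈ Lam (HX X) → g * max l0.natAbs l1.natAbs ≤ C₁ * n ^ 5 →
    ∀ D : ℕ, 0 < D → (∀ t : ℤ, (∃ z ∈ Lam (HX X), l0 * z 0 + l1 * z 1 = t) ↔ (D : ℤ) ∣ t) →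
    ∀ z : Fin 2 → ℤ, z ∈ sat (Lam (HX X)) → z ∉ Lam (HX X) → Sm C n (HX X) ⟨0, zin z⟩ := by
  obtain ⟨C₂, hC₂⟩ := hlat k A
  obtain ⟨C₃, hC₃⟩ := hreg k (max C₁ C₂) hk
  refine ⟨(40320 * 2 ^ (16 * k + 5)) ^ 2 * C₃, ?_⟩
  intro n hn X hX l0 l1 hl hl1 hb m0 m1 hm g hg hgb hζ hgn D hD hDt z hz hz'
  obtain ⟨i1, i2⟩ := index_pos (Lam (HX X)) l0 l1 m0 m1 hm g hg hζ D hD hDt
  obtain ⟨δ, j1, j2, j3, j4, j5, j6⟩ := hC₂ n hn X hX l0 l1 hl hl1 hb D hD hDt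
  obtain ⟨q, χ, hq, hq0, hχ, hd⟩ := core hchi hsep X z hz hz' j1
  set ε := (LM (HX X)).relIndex (sat (LM (HX X))) with hε
  obtain ⟨_, r2, _⟩ := hidx k q hq0 χ
  rw [← hq] at i2
  refine ⟨40320 * (q * ε) ^ 5 * (Rc (k := k) χ).index, hd, ?_⟩
  have hR := hC₃ n hn δ D ε g l0.natAbs l1.natAbs (Nat.pos_of_ne_zero j1)
    (Int.natAbs_pos.mpr hl1)
    (j2.trans (by gcongr; exact le_max_right _ _))
    (j3.trans (by gcongr; exact le_max_right _ _))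
    (fun h => (j4 (by simpa using h)).trans (by gcongr; exact le_max_right _ _))
    (hgn.trans (by gcongr; exact le_max_left _ _))
    (fun hδ => by
      refine hrpb k l0 l1 (sat (LM (HX X))) (LM (HX X)) (by omega) hl (sat_sat _) ?_ ?_
        (le_sat _) j1 m0 m1 hm g ?_
      · rw [LQ_sat]; omega
      · rw [LQ_sat]; omega
      · exact LM_form X m0 m1 g hgb)
  have h1 : 40320 * (q * ε) ^ 5 * (Rc (k := k) χ).index ≤
      (40320 * 2 ^ (16 * k + 5)) * ((g * D) ^ (16 * k + 5) * ε ^ 5) := by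
    calc 40320 * (q * ε) ^ 5 * (Rc (k := k) χ).index
        ≤ 40320 * (q * ε) ^ 5 * q ^ (16 * k) := Nat.mul_le_mul_left _ r2
      _ = 40320 * (q ^ (16 * k + 5) * ε ^ 5) := by ring
      _ ≤ 40320 * ((2 * g * D) ^ (16 * k + 5) * ε ^ 5) := by gcongr
      _ = (40320 * 2 ^ (16 * k + 5)) * ((g * D) ^ (16 * k + 5) * ε ^ 5) := by
          rw [mul_assoc 2 g D, mul_pow 2 (g * D)]; ring
  calc (40320 * (q * ε) ^ 5 * (Rc (k := k) χ).index) ^ 2
      ≤ ((40320 * 2 ^ (16 * k + 5)) * ((g * D) ^ (16 * k + 5) * ε ^ 5)) ^ 2 :=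
        Nat.pow_le_pow_left h1 2
    _ = (40320 * 2 ^ (16 * k + 5)) ^ 2 * ((g * D) ^ (16 * k + 5) * ε ^ 5) ^ 2 := by
        rw [mul_pow]
    _ ≤ (40320 * 2 ^ (16 * k + 5)) ^ 2 * (C₃ * n ^ ((68 * k + 23) * (16 * k + 5))) :=
        Nat.mul_le_mul_left _ hR
    _ = (40320 * 2 ^ (16 * k + 5)) ^ 2 * C₃ * n ^ ((68 * k + 23) * (16 * k + 5)) := by
        rw [mul_assoc]

/-- the case `λ(Λ) ≠ 0`, `l1 = 0`. -/
lemma case_two (hchi : ChiStmt) (hsep : SepStmt) (hidx : IdxStmt) (hla0 : La0Stmt)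
    (A C₁ : ℕ) (hk : 100 ≤ k) :
    ∃ C : ℕ, ∀ n : ℕ, 1 ≤ n → ∀ X : Finset (W k),
    (∀ x ∈ X, ∀ c, |x c| ≤ A * (n : ℤ) ^ (wt c)) → ∀ l0 : ℤ, (l0 = 1 ∨ l0 = -1) →
    (∀ x ∈ X, ∀ y ∈ X, bz x y 0 = 0) →
    ∀ m0 m1 : ℤ, m0 * 0 - m1 * l0 = 1 →
    ∀ g : ℕ, 0 < g → (2 * g) • ![0, -l0] ∈ Lam (HX X) → g ≤ C₁ * n ^ 5 →
    ∀ D : ℕ, 0 < D → (∀ t : ℤ, (∃ z ∈ Lam (HX X), l0 * z 0 + 0 * z 1 = t) ↔ (D : ℤ) ∣ t) →
    ∀ z : Fin 2 → ℤ, z ∈ sat (Lam (HX X)) → z ∉ Lam (HX X) → Sm C n (HX X) ⟨0, zin z⟩ := by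
  obtain ⟨C₂, hC₂⟩ := hla0 k A
  refine ⟨(40320 * ((2 * C₁) ^ (16 * k + 5) * C₂ ^ (14 * k + 5))) ^ 2, ?_⟩
  intro n hn X hX l0 hl0 hb m0 m1 hm g hg hζ hgn D hD hDt z hz hz'
  obtain ⟨i1, i2⟩ := index_pos (Lam (HX X)) l0 0 m0 m1 hm g hg hζ D hD hDt
  have hDt' : ∀ t : ℤ, (∃ z ∈ Lam (HX X), z 0 = t) ↔ (D : ℤ) ∣ t := by
    intro t
    have h1 := hDt (l0 * t)
    have hl : l0 * l0 = 1 := by
      rcases hl0 with rfl | rfl <;> norm_num
    constructor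
    · rintro ⟨w, hw, rfl⟩
      have h2 := h1.mp ⟨w, hw, by ring⟩
      have h3 := dvd_mul_of_dvd_right h2 l0
      rwa [← mul_assoc, hl, one_mul] at h3
    · intro ht
      obtain ⟨w, hw, hwt⟩ := h1.mpr (dvd_mul_of_dvd_right ht l0)
      refine ⟨w, hw, ?_⟩
      have h3 : l0 * (l0 * w 0) = l0 * (l0 * t) := by rw [← hwt]; ring
      rwa [← mul_assoc, ← mul_assoc, hl, one_mul, one_mul] at h3
  obtain ⟨j1, j2⟩ := hC₂ n hn X hX hb D hD hDt'
  obtain ⟨q, χ, hq, hq0, hχ, hd⟩ := core hchi hsep X z hz hz' j1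
  set ε := (LM (HX X)).relIndex (sat (LM (HX X))) with hε
  obtain ⟨_, _, r3⟩ := hidx k q hq0 χ
  have hχ1 : (2 * g) • χ ![0, 1] = 0 := by
    have h1 := hχ _ hζ
    rw [map_nsmul] at h1
    rcases hl0 with rfl | rfl
    · have e : (![0, -1] : Fin 2 → ℤ) = - ![0, 1] := by
        funext j; fin_cases j <;> simp
      rw [e, map_neg, smul_neg, neg_eq_zero] at h1
      exact h1
    · rw [neg_neg] at h1
      exact h1
  have r4 := r3 (2 * g) (by omega) hχ1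
  rw [← hq] at i2
  refine ⟨40320 * (q * ε) ^ 5 * (Rc (k := k) χ).index, hd, ?_⟩
  have hε0 : 0 < ε := Nat.pos_of_ne_zero j1
  have hg2 : 2 * g ≤ 2 * C₁ * n ^ 5 := by
    calc 2 * g ≤ 2 * (C₁ * n ^ 5) := Nat.mul_le_mul_left _ hgn
      _ = 2 * C₁ * n ^ 5 := by ring
  have h1 : 40320 * (q * ε) ^ 5 * (Rc (k := k) χ).index ≤
      (40320 * ((2 * C₁) ^ (16 * k + 5) * C₂ ^ (14 * k + 5))) *
        n ^ (504 * k ^ 2 + 414 * k + 80) := by
    calc 40320 * (q * ε) ^ 5 * (Rc (k := k) χ).index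
        ≤ 40320 * (q * ε) ^ 5 * (q ^ (14 * k) * (2 * g) ^ (2 * k)) := Nat.mul_le_mul_left _ r4
      _ ≤ 40320 * ((2 * g * D) * ε) ^ 5 * ((2 * g * D) ^ (14 * k) * (2 * g) ^ (2 * k)) := by
          gcongr
      _ = 40320 * ((2 * g) ^ (16 * k + 5) * (D ^ (14 * k + 5) * ε ^ 5)) := by
          rw [mul_pow (2 * g) D (14 * k)]
          ring
      _ ≤ 40320 * ((2 * g) ^ (16 * k + 5) * (D ^ (14 * k + 5) * ε ^ (14 * k + 5))) := by
          have e5 : ε ^ 5 ≤ ε ^ (14 * k + 5) := Nat.pow_le_pow_right hε0 (by omega)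
          exact Nat.mul_le_mul_left _ (Nat.mul_le_mul_left _ (Nat.mul_le_mul_left _ e5))
      _ = 40320 * ((2 * g) ^ (16 * k + 5) * (D * ε) ^ (14 * k + 5)) := by rw [mul_pow D ε]
      _ ≤ 40320 * ((2 * C₁ * n ^ 5) ^ (16 * k + 5) * (C₂ * n ^ (36 * k + 11)) ^ (14 * k + 5)) := by
          gcongr
      _ = (40320 * ((2 * C₁) ^ (16 * k + 5) * C₂ ^ (14 * k + 5))) *
            n ^ (504 * k ^ 2 + 414 * k + 80) := by
          rw [mul_pow (2 * C₁), mul_pow C₂, ← pow_mul n, ← pow_mul n]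
          have e : n ^ (504 * k ^ 2 + 414 * k + 80) =
              n ^ (5 * (16 * k + 5)) * n ^ ((36 * k + 11) * (14 * k + 5)) := by
            rw [← pow_add]; congr 1; ring
          rw [e]; ring
  calc (40320 * (q * ε) ^ 5 * (Rc (k := k) χ).index) ^ 2
      ≤ ((40320 * ((2 * C₁) ^ (16 * k + 5) * C₂ ^ (14 * k + 5))) *
        n ^ (504 * k ^ 2 + 414 * k + 80)) ^ 2 :=
        Nat.pow_le_pow_left h1 2
    _ = (40320 * ((2 * C₁) ^ (16 * k + 5) * C₂ ^ (14 * k + 5))) ^ 2 *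
          n ^ ((504 * k ^ 2 + 414 * k + 80) * 2) := by
        rw [mul_pow, ← pow_mul n]
    _ ≤ (40320 * ((2 * C₁) ^ (16 * k + 5) * C₂ ^ (14 * k + 5))) ^ 2 *
          n ^ ((68 * k + 23) * (16 * k + 5)) := by
        refine Nat.mul_le_mul_left _ (Nat.pow_le_pow_right hn ?_)
        nlinarith

lemma Sm_mono {C C' n : ℕ} (h : C ≤ C') {H : Subgroup (Gp k)} {g : Gp k} (hs : Sm C n H g) :
    Sm C' n H g := by
  obtain ⟨d, hd, hd2⟩ := hs
  exact ⟨d, hd, hd2.trans (Nat.mul_le_mul_right _ h)⟩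

/-- **CA1**. -/
theorem ca1 (hchi : ChiStmt) (hsep : SepStmt) (hidx : IdxStmt) (hcru : CruStmt)
    (hlat : LatStmt) (hla0 : La0Stmt) (hrpb : RpbStmt) (hreg : RegStmt) : Ca1Stmt := by
  intro k A hk
  obtain ⟨C₀, hC₀⟩ := case_zero hchi hsep hidx hcru A (16 * k * (A * A)) hk
  obtain ⟨C₁, hC₁⟩ := case_one hchi hsep hidx hlat hrpb hreg A (16 * k * (A * A)) hk
  obtain ⟨C₂, hC₂⟩ := case_two hchi hsep hidx hla0 A (16 * k * (A * A)) hk
  refine ⟨C₀ + C₁ + C₂, ?_⟩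
  intro n hn X hX l0 l1 hl hb hne z hz hz'
  obtain ⟨u, v, huv⟩ := hl
  have hm : v * l1 - (-u) * l0 = 1 := by linarith
  obtain ⟨g, hg, hgb, hζ, hgn⟩ := exists_g X l0 l1 v (-u) hm hb hne
    (16 * k * (A * A) * n ^ 5) (by
      intro x hx y hy j
      have h1 := bz_bound hn x y A A (by positivity) (by positivity)
        (fun c => hX x hx (Sum.inl c)) (fun c => hX y hy (Sum.inl c)) j
      push_cast
      exact h1)
  have hmax : 1 ≤ max l0.natAbs l1.natAbs := by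
    by_contra h
    have h1 : l0.natAbs = 0 := by
      have := le_max_left l0.natAbs l1.natAbs
      omega
    have h2 : l1.natAbs = 0 := by
      have := le_max_right l0.natAbs l1.natAbs
      omega
    rw [Int.natAbs_eq_zero] at h1 h2
    rw [h1, h2] at huv
    simp at huv
  have hgn' : g ≤ 16 * k * (A * A) * n ^ 5 := by
    calc g = g * 1 := (mul_one g).symm
      _ ≤ g * max l0.natAbs l1.natAbs := Nat.mul_le_mul_left _ hmax
      _ ≤ _ := hgn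
  by_cases h0 : ∀ z ∈ Lam (HX X), l0 * z 0 + l1 * z 1 = 0
  · exact Sm_mono (by omega) (hC₀ n hn X hX l0 l1 v (-u) hm g hg hζ hgn' h0 z hz hz')
  -- the generator `D`
  let S : AddSubgroup ℤ := (Lam (HX X)).map
    (AddMonoidHom.mk' (fun z : Fin 2 → ℤ => l0 * z 0 + l1 * z 1) (fun s t => by
      simp only [Pi.add_apply]; ring))
  obtain ⟨D, hD⟩ := exists_gen S
  have hDt : ∀ t : ℤ, (∃ z ∈ Lam (HX X), l0 * z 0 + l1 * z 1 = t) ↔ (D : ℤ) ∣ t := by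
    intro t
    rw [← hD]
    rfl
  have hD0 : 0 < D := by
    rcases Nat.eq_zero_or_pos D with h | h
    · exfalso
      apply h0
      intro w hw
      have := (hDt _).mp ⟨w, hw, rfl⟩
      rw [h, Nat.cast_zero, zero_dvd_iff] at this
      exact this
    · exact h
  by_cases hl1 : l1 = 0
  · subst hl1
    have hl0 : l0 = 1 ∨ l0 = -1 := by
      apply Int.isUnit_iff.mp
      refine IsUnit.of_mul_eq_one u ?_
      linarith
    have hb' : ∀ x ∈ X, ∀ y ∈ X, bz x y 0 = 0 := by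
      intro x hx y hy
      have := hb x hx y hy
      rcases hl0 with rfl | rfl <;> linarith
    exact Sm_mono (by omega) (hC₂ n hn X hX l0 hl0 hb' v (-u) hm g hg hζ hgn' D hD0 hDt z hz hz')
  · exact Sm_mono (by omega) (hC₁ n hn X hX l0 l1 ⟨u, v, huv⟩ hl1 hb v (-u) hm g hg hgb hζ hgn
      D hD0 hDt z hz hz')

end Pool.Agent.SBG.H17
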